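import Mathlib

set_option autoImplicit false

/-!
The number of vertices of the Newton polygon of a sum of `k` squares with common support of `t`
monomials whose pairwise sums are distinct is at most `(k + 1) t`.
-/

namespace Pool.Agent.TH91.TS

open Finset

variable {t : ℕ}

/-- vertices of the upper hull of the points `(e i + e j, v i + v j)` with `R i j ≠ 0` -/
def Vtx (e : Fin t → ℝ) (v : Fin t → ℝ) (R : Fin t → Fin t → ℝ) (i j : Fin t) : Prop :=
  R i j ≠ 0 ∧ ∃ σ : ℝ, ∀ i' j', R i' j' ≠ 0 → e i' + e j' ≠ e i + e j →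
    v i' + v j' + σ * (e i' + e j') < v i + v j + σ * (e i + e j)

theorem cross {Xa Xb Xc Xd Wa Wb Wc Wd σ τ : ℝ} (hX : Xa + Xb = Xc + Xd) (hW : Wa + Wb = Wc + Wd)
    (h1 : Xc < Xa) (h2 : Xa < Xd) (h3 : Wc + σ * Xc < Wa + σ * Xa) (h4 : Wd + σ * Xd < Wa + σ * Xa)
    (h5 : Wc + τ * Xc < Wb + τ * Xb) (h6 : Wd + τ * Xd < Wb + τ * Xb) : False := by
  have hXb : Xb = Xc + Xd - Xa := by linarith
  have hWb : Wb = Wc + Wd - Wa := by linarith
  subst hXb hWb
  have e1 := mul_pos (sub_pos.2 h2) (sub_pos.2 h3)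
  have e2 := mul_pos (sub_pos.2 h1) (sub_pos.2 h4)
  have e3 := mul_pos (sub_pos.2 h1) (sub_pos.2 h5)
  have e4 := mul_pos (sub_pos.2 h2) (sub_pos.2 h6)
  nlinarith

theorem tri {e v : Fin t → ℝ} {R : Fin t → Fin t → ℝ} {i j j' l : Fin t}
    (ha : Vtx e v R i j') (hb : Vtx e v R l j) (hd : R i j ≠ 0) (hl : e l < e i)
    (hj : e j' < e j) : R l j' = 0 := by
  by_contra hc
  obtain ⟨-, σ, hσ⟩ := ha
  obtain ⟨-, τ, hτ⟩ := hb
  exact cross (Xa := e i + e j') (Xb := e l + e j) (Xc := e l + e j') (Xd := e i + e j)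
    (Wa := v i + v j') (Wb := v l + v j) (Wc := v l + v j') (Wd := v i + v j)
    (by ring) (by ring) (by linarith) (by linarith)
    (hσ l j' hc (by intro h; linarith)) (hσ i j hd (by intro h; linarith))
    (hτ l j' hc (by intro h; linarith)) (hτ i j hd (by intro h; linarith))

/-- linear independence of rows from triangularity -/
theorem card_le_of_tri {k : ℕ} {e : Fin t → ℝ} (he : Function.Injective e)
    {R : Fin t → Fin t → ℝ} (c : Fin k → Fin t → ℝ) (a : Fin k → Fin t → ℝ)
    (hR : ∀ i j, R i j = ∑ m, c m i * a m j) (J : Finset (Fin t)) (l : Fin t → Fin t)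
    (h1 : ∀ j ∈ J, R (l j) j ≠ 0) (h2 : ∀ j ∈ J, ∀ j' ∈ J, e j' < e j → R (l j) j' = 0) :
    J.card ≤ k := by
  classical
  let W : Submodule ℝ (Fin t → ℝ) := Submodule.span ℝ (Set.range a)
  have hmem : ∀ i, R i ∈ W := by
    intro i
    have : R i = ∑ m, c m i • a m := by
      ext j
      rw [hR, Finset.sum_apply]
      rfl
    rw [this]
    exact Submodule.sum_mem _ fun m _ => Submodule.smul_mem _ _ (Submodule.subset_span ⟨m, rfl⟩)
  have hli : LinearIndependent ℝ (fun j : J => R (l j)) := by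
    rw [Fintype.linearIndependent_iff]
    intro g hg
    by_contra hne
    push Not at hne
    obtain ⟨i0, hi0⟩ := hne
    have hS : (Finset.univ.filter fun j : J => g j ≠ 0).Nonempty := ⟨i0, by simpa using hi0⟩
    obtain ⟨j, hj, hmin⟩ := Finset.exists_min_image _ (fun j : J => e j) hS
    rw [Finset.mem_filter] at hj
    have h3 := congrFun hg j
    rw [Finset.sum_apply] at h3
    rw [Finset.sum_eq_single j] at h3
    · rw [Pi.smul_apply, smul_eq_mul, Pi.zero_apply] at h3
      rcases mul_eq_zero.1 h3 with h | h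
      · exact hj.2 h
      · exact h1 j j.2 h
    · intro b _ hb
      rw [Pi.smul_apply, smul_eq_mul]
      by_cases hgb : g b = 0
      · rw [hgb, zero_mul]
      · have h4 := hmin b (by simpa using hgb)
        have h5 : e (j : Fin t) ≠ e (b : Fin t) := fun h => hb (Subtype.ext (he h.symm))
        rw [h2 b b.2 j j.2 (lt_of_le_of_ne h4 h5), mul_zero]
    · intro h; exact absurd (Finset.mem_univ _) h
  have hli' : LinearIndependent ℝ (fun j : J => (⟨R (l j), hmem _⟩ : W)) :=
    LinearIndependent.of_comp W.subtype hli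
  have h5 := hli'.fintype_card_le_finrank
  have h6 : Module.finrank ℝ W ≤ Fintype.card (Fin k) := finrank_range_le_card a
  rw [Fintype.card_coe] at h5
  rw [Fintype.card_fin] at h6
  exact h5.trans h6

theorem card_vtx {k : ℕ} {e : Fin t → ℝ} (he : Function.Injective e) (v : Fin t → ℝ)
    {R : Fin t → Fin t → ℝ} (c : Fin k → Fin t → ℝ) (a : Fin k → Fin t → ℝ)
    (hR : ∀ i j, R i j = ∑ m, c m i * a m j) (P : Finset (Fin t × Fin t))
    (hP : ∀ p ∈ P, Vtx e v R p.1 p.2) : P.card ≤ (k + 1) * t := by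
  classical
  -- leftmost partner
  have hl : ∀ j : Fin t, ∃ l : Fin t, (∃ i, (i, j) ∈ P) → (l, j) ∈ P ∧ ∀ i, (i, j) ∈ P → e l ≤ e i := by
    intro j
    by_cases h : ∃ i, (i, j) ∈ P
    · have hS : (Finset.univ.filter fun i => (i, j) ∈ P).Nonempty := by
        obtain ⟨i, hi⟩ := h
        exact ⟨i, by simpa using hi⟩
      obtain ⟨l, hl, hmin⟩ := Finset.exists_min_image _ e hS
      refine ⟨l, fun _ => ⟨by simpa using hl, fun i hi => hmin i (by simpa using hi)⟩⟩
    · exact ⟨j, fun h' => absurd h' h⟩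
  choose l hl using hl
  have hsub : P ⊆ (Finset.univ.image fun j => (l j, j)) ∪
      (Finset.univ.biUnion fun i => (P.filter fun p => p.1 = i ∧ p.1 ≠ l p.2)) := by
    rintro ⟨i, j⟩ hp
    rw [Finset.mem_union, Finset.mem_image, Finset.mem_biUnion]
    by_cases h : i = l j
    · left; exact ⟨j, Finset.mem_univ _, by rw [h]⟩
    · right; exact ⟨i, Finset.mem_univ _, by rw [Finset.mem_filter]; exact ⟨hp, rfl, h⟩⟩
  have h1 : (Finset.univ.image fun j => (l j, j)).card ≤ t := by
    refine Finset.card_image_le.trans ?_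
    simp
  have h2 : ∀ i : Fin t, (P.filter fun p => p.1 = i ∧ p.1 ≠ l p.2).card ≤ k := by
    intro i
    have h3 : (P.filter fun p => p.1 = i ∧ p.1 ≠ l p.2).card =
        ((P.filter fun p => p.1 = i ∧ p.1 ≠ l p.2).image Prod.snd).card := by
      rw [Finset.card_image_of_injOn]
      rintro ⟨x, y⟩ hx ⟨x', y'⟩ hx' hxy
      rw [Finset.mem_coe, Finset.mem_filter] at hx hx'
      have e1 : x = x' := hx.2.1.trans hx'.2.1.symm
      have e2 : y = y' := hxy
      rw [e1, e2]
    rw [h3]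
    have hJ : ∀ j ∈ (P.filter fun p => p.1 = i ∧ p.1 ≠ l p.2).image Prod.snd,
        (i, j) ∈ P ∧ i ≠ l j := by
      intro j hj
      rw [Finset.mem_image] at hj
      obtain ⟨⟨x, y⟩, hx, rfl⟩ := hj
      rw [Finset.mem_filter] at hx
      obtain ⟨h4, h5, h6⟩ := hx
      simp only at h5 h6
      subst h5
      exact ⟨h4, h6⟩
    apply card_le_of_tri he c a hR _ l
    · intro j hj
      exact (hP _ (hl j ⟨i, (hJ j hj).1⟩).1).1
    · intro j hj j' hj' hlt
      have h7 := hJ j hj
      have h8 := hJ j' hj'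
      have h9 := hl j ⟨i, h7.1⟩
      refine tri (i := i) (hP _ h8.1) (hP _ h9.1) (hP _ h7.1).1 ?_ hlt
      exact lt_of_le_of_ne (h9.2 i h7.1) (fun h => h7.2 (he h).symm)
  calc P.card ≤ _ := Finset.card_le_card hsub
    _ ≤ _ := Finset.card_union_le _ _
    _ ≤ t + ∑ i : Fin t, k := add_le_add h1 (Finset.card_biUnion_le.trans (Finset.sum_le_sum fun i _ => h2 i))
    _ = (k + 1) * t := by simp; ring

end Pool.Agent.TH91.TS
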