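import Mathlib

set_option autoImplicit false

/-!
Zeros of exponential sums `∑ C p * exp (L * (w p + s * E p))` for large `L`: there are at most as
many as vertices of the upper hull, if no three of the points are collinear.
-/

namespace Pool.Agent.TH91.TS

open Finset

theorem exists_lower {α : Type*} (S : Finset α) (f : α → ℝ) (h : ∀ x ∈ S, 0 < f x) :
    ∃ ε : ℝ, 0 < ε ∧ ∀ x ∈ S, ε ≤ f x := by
  rcases S.eq_empty_or_nonempty with rfl | hS
  · exact ⟨1, one_pos, fun x hx => by simp at hx⟩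
  · obtain ⟨x, hx, hmin⟩ := Finset.exists_min_image S f hS
    exact ⟨f x, h x hx, hmin⟩

/-- near-maximal points have distinct abscissas, and three of them form a midpoint triple -/
theorem exists_gap {ι : Type*} [DecidableEq ι] (I : Finset ι) (E w : ι → ℝ) (D : ℝ) (hD : 1 ≤ D)
    (hED : ∀ p ∈ I, ∀ q ∈ I, |E p - E q| ≤ D)
    (hw : ∀ p ∈ I, ∀ q ∈ I, p ≠ q → E p = E q → w p ≠ w q)
    (hcol : ∀ p ∈ I, ∀ q ∈ I, ∀ r ∈ I, E p < E q → E q < E r →
      (w p - w r) * (E q - E r) = (w q - w r) * (E p - E r) →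
      2 * E q = E p + E r ∧ 2 * w q = w p + w r) :
    ∃ ε : ℝ, 0 < ε ∧ ∀ (s M : ℝ), (∀ x ∈ I, w x + s * E x ≤ M) →
      (∀ p ∈ I, ∀ q ∈ I, p ≠ q → M - ε < w p + s * E p → M - ε < w q + s * E q → E p ≠ E q) ∧
      (∀ p ∈ I, ∀ q ∈ I, ∀ r ∈ I, E p < E q → E q < E r → M - ε < w p + s * E p →
        M - ε < w q + s * E q → M - ε < w r + s * E r →
        2 * E q = E p + E r ∧ 2 * w q = w p + w r) := by
  obtain ⟨ε, hε, h⟩ := exists_lower
    ((I ×ˢ I ×ˢ I).filter fun x =>
      (w x.1 - w x.2.2) * (E x.2.1 - E x.2.2) - (w x.2.1 - w x.2.2) * (E x.1 - E x.2.2) ≠ 0)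
    (fun x => |(w x.1 - w x.2.2) * (E x.2.1 - E x.2.2) - (w x.2.1 - w x.2.2) * (E x.1 - E x.2.2)|)
    (by
      intro x hx
      rw [Finset.mem_filter] at hx
      exact abs_pos.2 hx.2)
  obtain ⟨η, hη, h'⟩ := exists_lower ((I ×ˢ I).filter fun x => w x.1 - w x.2 ≠ 0)
    (fun x => |w x.1 - w x.2|) (by
      intro x hx
      rw [Finset.mem_filter] at hx
      exact abs_pos.2 hx.2)
  refine ⟨min (ε / (4 * D)) η, by positivity, ?_⟩
  intro s M hM
  refine ⟨?_, ?_⟩
  · intro p hp q hq hpq hp' hq' hE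
    have h1 : w p - w q ≠ 0 := sub_ne_zero.2 (hw p hp q hq hpq hE)
    have h2 := h' (p, q) (by rw [Finset.mem_filter, Finset.mem_product]; exact ⟨⟨hp, hq⟩, h1⟩)
    simp only at h2
    have h3 := hM p hp
    have h4 := hM q hq
    rw [hE] at hp' h3
    have h5 : |w p - w q| < min (ε / (4 * D)) η := by
      rw [abs_lt]; constructor <;> linarith
    have h6 := min_le_right (ε / (4 * D)) η
    linarith
  · intro p hp q hq r hr hpq hqr hp' hq' hr'
    by_contra hcon
    have hdet : (w p - w r) * (E q - E r) - (w q - w r) * (E p - E r) ≠ 0 := by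
      intro h0
      exact hcon (hcol p hp q hq r hr hpq hqr (sub_eq_zero.1 h0))
    have hx := h ⟨p, q, r⟩ (by
      rw [Finset.mem_filter, Finset.mem_product, Finset.mem_product]
      exact ⟨⟨hp, hq, hr⟩, hdet⟩)
    simp only at hx
    have e1 : (w p - w r) * (E q - E r) - (w q - w r) * (E p - E r) =
        ((w p + s * E p) - (w r + s * E r)) * (E q - E r) -
          ((w q + s * E q) - (w r + s * E r)) * (E p - E r) := by ring
    rw [e1] at hx
    have hp1 := hM p hp
    have hq1 := hM q hq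
    have hr1 := hM r hr
    have hmin := min_le_left (ε / (4 * D)) η
    have a1 : |(w p + s * E p) - (w r + s * E r)| ≤ ε / (4 * D) := by
      rw [abs_le]; constructor <;> linarith
    have a2 : |(w q + s * E q) - (w r + s * E r)| ≤ ε / (4 * D) := by
      rw [abs_le]; constructor <;> linarith
    have a3 := hED q hq r hr
    have a4 := hED p hp r hr
    have hpos : 0 ≤ ε / (4 * D) := by positivity
    have b1 : |((w p + s * E p) - (w r + s * E r)) * (E q - E r)| ≤ ε / (4 * D) * D := by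
      rw [abs_mul]
      exact mul_le_mul a1 a3 (abs_nonneg _) hpos
    have b2 : |((w q + s * E q) - (w r + s * E r)) * (E p - E r)| ≤ ε / (4 * D) * D := by
      rw [abs_mul]
      exact mul_le_mul a2 a4 (abs_nonneg _) hpos
    have b3 := abs_sub (((w p + s * E p) - (w r + s * E r)) * (E q - E r))
      (((w q + s * E q) - (w r + s * E r)) * (E p - E r))
    have b4 : ε / (4 * D) * D = ε / 4 := by field_simp
    rw [b4] at b1 b2
    linarith

/-- no term dominates at a zero -/
theorem no_dom {ι : Type*} [DecidableEq ι] (I : Finset ι) (c l : ι → ℝ) (L δ cmin D : ℝ)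
    (hcm : 0 < cmin) (r : ι) (hr : r ∈ I) (hcr : cmin ≤ |c r|) (hL : 0 ≤ L)
    (hD : ∑ p ∈ I, |c p| ≤ D) (hbig : D / cmin < Real.exp (L * δ))
    (h : ∀ p ∈ I, p ≠ r → c p = 0 ∨ l p ≤ l r - δ)
    (h0 : ∑ p ∈ I, c p * Real.exp (L * l p) = 0) : False := by
  rw [← Finset.add_sum_erase I _ hr] at h0
  have h1 : |c r * Real.exp (L * l r)| = |∑ p ∈ I.erase r, c p * Real.exp (L * l p)| := by
    rw [eq_neg_of_add_eq_zero_left h0, abs_neg]
  have h2 : |∑ p ∈ I.erase r, c p * Real.exp (L * l p)| ≤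
      ∑ p ∈ I.erase r, |c p| * Real.exp (L * (l r - δ)) := by
    refine (Finset.abs_sum_le_sum_abs _ _).trans (Finset.sum_le_sum fun p hp => ?_)
    rw [Finset.mem_erase] at hp
    rw [abs_mul, abs_of_pos (Real.exp_pos _)]
    rcases h p hp.2 hp.1 with h3 | h3
    · rw [h3, abs_zero, zero_mul, zero_mul]
    · exact mul_le_mul_of_nonneg_left (Real.exp_le_exp.2 (mul_le_mul_of_nonneg_left h3 hL))
        (abs_nonneg _)
  rw [← Finset.sum_mul] at h2
  have h3 : ∑ p ∈ I.erase r, |c p| ≤ D :=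
    (Finset.sum_le_sum_of_subset_of_nonneg (Finset.erase_subset _ _)
      fun _ _ _ => abs_nonneg _).trans hD
  have h4 : cmin * Real.exp (L * l r) ≤ D * Real.exp (L * (l r - δ)) := by
    calc cmin * Real.exp (L * l r) ≤ |c r| * Real.exp (L * l r) :=
          mul_le_mul_of_nonneg_right hcr (Real.exp_pos _).le
      _ = |c r * Real.exp (L * l r)| := by rw [abs_mul, abs_of_pos (Real.exp_pos _)]
      _ ≤ _ := by rw [h1]; exact h2
      _ ≤ _ := mul_le_mul_of_nonneg_right h3 (Real.exp_pos _).le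
  have h5 : Real.exp (L * l r) = Real.exp (L * (l r - δ)) * Real.exp (L * δ) := by
    rw [← Real.exp_add]; congr 1; ring
  rw [h5] at h4
  have h6 : cmin * Real.exp (L * δ) ≤ D := by
    have := Real.exp_pos (L * (l r - δ))
    by_contra hc
    push Not at hc
    nlinarith
  rw [div_lt_iff₀ hcm] at hbig
  linarith

/-- one step of the method of Rolle -/
theorem rolle_step {ι : Type*} (I : Finset ι) (E w c : ι → ℝ) (μ L s1 s2 : ℝ) (hL : 0 < L)
    (hlt : s1 < s2) (h1 : ∑ p ∈ I, c p * Real.exp (L * (w p + s1 * E p)) = 0)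
    (h2 : ∑ p ∈ I, c p * Real.exp (L * (w p + s2 * E p)) = 0) :
    ∃ ξ, s1 < ξ ∧ ξ < s2 ∧ ∑ p ∈ I, c p * (E p - μ) * Real.exp (L * (w p + ξ * E p)) = 0 := by
  let H : ℝ → ℝ := fun s => ∑ p ∈ I, c p * Real.exp (L * (w p + s * (E p - μ)))
  have hH : ∀ s, (∑ p ∈ I, c p * Real.exp (L * (w p + s * E p))) = 0 → H s = 0 := by
    intro s h0
    have : H s = Real.exp (-(L * (s * μ))) * ∑ p ∈ I, c p * Real.exp (L * (w p + s * E p)) := by
      rw [Finset.mul_sum]
      apply Finset.sum_congr rfl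
      intro p _
      rw [mul_left_comm, ← Real.exp_add]
      congr 2
      ring
    rw [this, h0, mul_zero]
  have hder : ∀ s, HasDerivAt H (∑ p ∈ I, c p * (Real.exp (L * (w p + s * (E p - μ)))
      * (L * (E p - μ)))) s := by
    intro s
    apply HasDerivAt.fun_sum
    intro p _
    apply HasDerivAt.const_mul
    apply HasDerivAt.exp
    have h1 : HasDerivAt (fun s : ℝ => s * (E p - μ)) (E p - μ) s := by
      simpa using (hasDerivAt_id s).mul_const (E p - μ)
    exact (h1.const_add (w p)).const_mul L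
  obtain ⟨ξ, hξ, hξ0⟩ := exists_hasDerivAt_eq_zero (f := H) (f' := fun s =>
    ∑ p ∈ I, c p * (Real.exp (L * (w p + s * (E p - μ))) * (L * (E p - μ)))) hlt
    (fun s _ => (hder s).continuousAt.continuousWithinAt)
    (by rw [hH s1 h1, hH s2 h2]) (fun s _ => hder s)
  refine ⟨ξ, hξ.1, hξ.2, ?_⟩
  have h3 : ∑ p ∈ I, c p * (E p - μ) * Real.exp (L * (w p + ξ * E p)) =
      Real.exp (L * (ξ * μ)) / L * ∑ p ∈ I, c p *
        (Real.exp (L * (w p + ξ * (E p - μ))) * (L * (E p - μ))) := by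
    rw [Finset.mul_sum]
    apply Finset.sum_congr rfl
    intro p _
    have h4 : Real.exp (L * (w p + ξ * E p)) = Real.exp (L * (ξ * μ)) *
        Real.exp (L * (w p + ξ * (E p - μ))) := by
      rw [← Real.exp_add]; congr 1; ring
    rw [h4]
    field_simp
  rw [h3, hξ0, mul_zero]

theorem count_le {ι : Type*} [DecidableEq ι] (I : Finset ι) (E w C : ι → ℝ)
    (hC : ∀ p ∈ I, C p ≠ 0) (hne : I.Nonempty)
    (hE : ∀ p ∈ I, ∀ q ∈ I, E p < E q → E p + 1 ≤ E q)
    (hw : ∀ p ∈ I, ∀ q ∈ I, p ≠ q → E p = E q → w p ≠ w q)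
    (hcol : ∀ p ∈ I, ∀ q ∈ I, ∀ r ∈ I, E p < E q → E q < E r →
      (w p - w r) * (E q - E r) = (w q - w r) * (E p - E r) →
      2 * E q = E p + E r ∧ 2 * w q = w p + w r) :
    ∃ L0 : ℝ, 0 < L0 ∧ ∀ L : ℝ, L0 ≤ L → ∀ S : Finset ℝ,
      (∀ s ∈ S, ∑ p ∈ I, C p * Real.exp (L * (w p + s * E p)) = 0) →
      ∃ f : ℝ → ι, (∀ s ∈ S, f s ∈ I ∧ ∃ σ : ℝ, ∀ p ∈ I, p ≠ f s →
        w p + σ * E p < w (f s) + σ * E (f s)) ∧
        ∀ s1 ∈ S, ∀ s2 ∈ S, ∀ s3 ∈ S, s1 < s2 → s2 < s3 → f s1 = f s2 → f s2 = f s3 → False := by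
  classical
  -- constants
  obtain ⟨D, hD1, hED⟩ : ∃ D : ℝ, 1 ≤ D ∧ ∀ p ∈ I, ∀ q ∈ I, |E p - E q| ≤ D := by
    refine ⟨1 + ∑ x ∈ I ×ˢ I, |E x.1 - E x.2|, ?_, ?_⟩
    · have : 0 ≤ ∑ x ∈ I ×ˢ I, |E x.1 - E x.2| := Finset.sum_nonneg fun _ _ => abs_nonneg _
      linarith
    · intro p hp q hq
      have := Finset.single_le_sum (f := fun x : ι × ι => |E x.1 - E x.2|)
        (fun _ _ => abs_nonneg _) (Finset.mk_mem_product hp hq)
      simp only at this
      linarith
  obtain ⟨ε, hε, hgap⟩ := exists_gap I E w D hD1 hED hw hcol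
  obtain ⟨cmin, hcm, hcmin⟩ := exists_lower I (fun p => |C p|) (fun p hp => abs_pos.2 (hC p hp))
  obtain ⟨δ, hδ⟩ : ∃ δ : ℝ, δ = ε / (8 * D) := ⟨_, rfl⟩
  have hδ0 : 0 < δ := by rw [hδ]; positivity
  have hδD : 8 * (δ * D) = ε := by rw [hδ]; field_simp
  have hδε : 8 * δ ≤ ε := by nlinarith
  obtain ⟨K, hK⟩ : ∃ K : ℝ, K = (∑ p ∈ I, |C p|) * (D * D) / (cmin / 2) := ⟨_, rfl⟩
  have hsum0 : 0 ≤ ∑ p ∈ I, |C p| := Finset.sum_nonneg fun _ _ => abs_nonneg _
  have hK0 : 0 ≤ K := by rw [hK]; positivity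
  have hDD : 1 ≤ D * D := by nlinarith
  have hK1 : (∑ p ∈ I, |C p|) / (cmin / 2) ≤ K := by
    rw [hK]
    apply div_le_div_of_nonneg_right _ (by positivity)
    nlinarith
  refine ⟨K / δ + 1, by positivity, ?_⟩
  intro L hL S hS
  have hL0 : 0 < L := lt_of_lt_of_le (by positivity) hL
  have hexp : K < Real.exp (L * δ) := by
    have h1 := Real.add_one_le_exp (L * δ)
    have h2 : K / δ < L := by linarith
    rw [div_lt_iff₀ hδ0] at h2
    linarith
  -- the extreme near-maximal indices at a zero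
  have hpair : ∀ s ∈ S, ∃ q r : ι, ∃ M : ℝ, q ∈ I ∧ r ∈ I ∧ E q < E r ∧
      (∀ x ∈ I, w x + s * E x ≤ M) ∧ M - 2 * δ ≤ w q + s * E q ∧ M - 2 * δ ≤ w r + s * E r ∧
      ∀ p ∈ I, p ≠ q → p ≠ r → w p + s * E p ≤ M - ε ∨
        (2 * E p = E q + E r ∧ 2 * w p = w q + w r) := by
    intro s hs
    obtain ⟨a, ha, hmax⟩ := Finset.exists_max_image I (fun x => w x + s * E x) hne

    obtain ⟨M, hMdef⟩ : ∃ M, M = w a + s * E a := ⟨_, rfl⟩
    rw [← hMdef] at hmax
    have hb : ∃ b ∈ I, b ≠ a ∧ M - δ ≤ w b + s * E b := by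
      by_contra hcon
      push Not at hcon
      refine no_dom I C (fun p => w p + s * E p) L δ (cmin / 2) _ (by positivity) a ha
        (by have := hcmin a ha; linarith) hL0.le le_rfl
        (lt_of_le_of_lt hK1 hexp) (fun p hp hpa => Or.inr ?_) (hS s hs)
      have := hcon p hp hpa
      rw [hMdef] at this
      exact this.le
    obtain ⟨b, hb, hba, hbM⟩ := hb
    obtain ⟨g1, g2⟩ := hgap s M hmax
    have hEab : E a ≠ E b := g1 a ha b hb hba.symm (by linarith) (by linarith)
    obtain ⟨N, hN⟩ : ∃ N : Finset ι, N = I.filter fun p => M - ε < w p + s * E p := ⟨_, rfl⟩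
    have hmemN : ∀ p, p ∈ N ↔ p ∈ I ∧ M - ε < w p + s * E p := fun p => by
      rw [hN, Finset.mem_filter]
    have haN : a ∈ N := (hmemN a).2 ⟨ha, by linarith⟩
    have hbN : b ∈ N := (hmemN b).2 ⟨hb, by linarith⟩
    obtain ⟨q, hqN, hqmin⟩ := Finset.exists_min_image N E ⟨a, haN⟩
    obtain ⟨r, hrN, hrmax⟩ := Finset.exists_max_image N E ⟨a, haN⟩
    have hqI := (hmemN q).1 hqN
    have hrI := (hmemN r).1 hrN
    have hqr : E q < E r := by
      rcases lt_or_gt_of_ne hEab with h | h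
      · exact lt_of_le_of_lt (hqmin a haN) (lt_of_lt_of_le h (hrmax b hbN))
      · exact lt_of_le_of_lt (hqmin b hbN) (lt_of_lt_of_le h (hrmax a haN))
    have hmid : ∀ p ∈ N, p ≠ q → p ≠ r → 2 * E p = E q + E r ∧ 2 * w p = w q + w r := by
      intro p hp hpq hpr
      have hpI := (hmemN p).1 hp
      have h1 : E p ≠ E q := g1 p hpI.1 q hqI.1 hpq hpI.2 hqI.2
      have h2 : E p ≠ E r := g1 p hpI.1 r hrI.1 hpr hpI.2 hrI.2
      exact g2 q hqI.1 p hpI.1 r hrI.1 (lt_of_le_of_ne (hqmin p hp) h1.symm)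
        (lt_of_le_of_ne (hrmax p hp) h2) hqI.2 hpI.2 hrI.2
    have hone : ∀ x y, x ∈ N → y ∈ N → E x ≠ E y → M - δ ≤ w x + s * E x →
        M - δ ≤ w y + s * E y → ∀ z ∈ ({q, r} : Finset ι), M - 2 * δ ≤ w z + s * E z := by
      intro x y hx hy hxy hx' hy' z hz
      have hqM := hmax q hqI.1
      have hrM := hmax r hrI.1
      rw [Finset.mem_insert, Finset.mem_singleton] at hz
      by_cases hxz : x = z
      · subst hxz; linarith
      by_cases hyz : y = z
      · subst hyz; linarith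
      rcases hz with rfl | rfl
      · by_cases hxr : x = r
        · subst hxr
          obtain ⟨m1, m2⟩ := hmid y hy hyz (fun h => hxy (by rw [h]))
          have m5 := congrArg (HMul.hMul s) m1
          linarith
        · obtain ⟨m1, m2⟩ := hmid x hx hxz hxr
          by_cases hyr : y = r
          · subst hyr
            have m5 := congrArg (HMul.hMul s) m1
            linarith
          · obtain ⟨m3, m4⟩ := hmid y hy hyz hyr
            exact absurd (by linarith) hxy
      · by_cases hxr : x = q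
        · subst hxr
          obtain ⟨m1, m2⟩ := hmid y hy (fun h => hxy (by rw [h])) hyz
          have m5 := congrArg (HMul.hMul s) m1
          linarith
        · obtain ⟨m1, m2⟩ := hmid x hx hxr hxz
          by_cases hyr : y = q
          · subst hyr
            have m5 := congrArg (HMul.hMul s) m1
            linarith
          · obtain ⟨m3, m4⟩ := hmid y hy hyr hyz
            exact absurd (by linarith) hxy
    have hone' := hone a b haN hbN hEab (by linarith) hbM
    refine ⟨q, r, M, hqI.1, hrI.1, hqr, hmax, hone' q (by simp), hone' r (by simp), ?_⟩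
    intro p hp hpq hpr
    by_cases hpN : p ∈ N
    · exact Or.inr (hmid p hpN hpq hpr)
    · left
      rw [hmemN] at hpN
      by_contra hcon
      exact hpN ⟨hp, not_le.1 hcon⟩
  have : Nonempty ι := ⟨hne.choose⟩
  choose! f g M hf hg hfg hmax hfM hgM hoth using hpair
  have hne_fg : ∀ s ∈ S, g s ≠ f s := by
    intro s hs h
    have := hfg s hs
    rw [h] at this
    exact lt_irrefl _ this
  refine ⟨f, fun s hs => ⟨hf s hs, s - 3 * δ, ?_⟩, ?_⟩
  · intro p hp hpf
    have h1 := hE (f s) (hf s hs) (g s) (hg s hs) (hfg s hs)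
    have h2 := hmax s hs (g s) (hg s hs)
    have h3 := hfM s hs
    have hr : w (g s) + (s - 3 * δ) * E (g s) < w (f s) + (s - 3 * δ) * E (f s) := by nlinarith
    by_cases hpg : p = g s
    · subst hpg; exact hr
    · rcases hoth s hs p hp hpf hpg with h4 | ⟨h4, h5⟩
      · have h6 := hED p hp (f s) (hf s hs)
        rw [abs_le] at h6
        nlinarith
      · have h6 : 2 * (w p + (s - 3 * δ) * E p) = (w (f s) + (s - 3 * δ) * E (f s)) +
            (w (g s) + (s - 3 * δ) * E (g s)) := by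
          have : 2 * (w p + (s - 3 * δ) * E p) = 2 * w p + (s - 3 * δ) * (2 * E p) := by ring
          rw [this, h4, h5]; ring
        linarith
  · -- the right end is the same
    have key : ∀ s1 ∈ S, ∀ s2 ∈ S, s1 < s2 → f s1 = f s2 → g s1 = g s2 := by
      intro s1 hs1 s2 hs2 hlt hff
      by_contra hgg
      have a1 := hmax s1 hs1 (f s1) (hf s1 hs1)
      have a2 := hgM s1 hs1
      have a4 := hfM s2 hs2
      have a5 := hfg s1 hs1
      rw [← hff] at a4
      have a6 : w (f s1) + s2 * E (f s1) - 2 * δ ≤ w (g s1) + s2 * E (g s1) := by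
        nlinarith [mul_pos (sub_pos.2 hlt) (sub_pos.2 a5)]
      rcases hoth s2 hs2 (g s1) (hg s1 hs1) (by rw [← hff]; exact hne_fg s1 hs1) hgg with h | ⟨h, h'⟩
      · linarith
      · rw [← hff] at h h'
        -- `g s1` is the midpoint of `f s1` and `g s2`
        have b1 : w (g s2) + s1 * E (g s2) = 2 * (w (g s1) + s1 * E (g s1)) -
            (w (f s1) + s1 * E (f s1)) := by
          have : 2 * (w (g s1) + s1 * E (g s1)) = 2 * w (g s1) + s1 * (2 * E (g s1)) := by ring
          rw [this, h, h']; ring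
        have b2 : M s1 - 4 * δ ≤ w (g s2) + s1 * E (g s2) := by rw [b1]; linarith
        have b3 := hfg s2 hs2
        rw [← hff] at b3
        rcases hoth s1 hs1 (g s2) (hg s2 hs2) (by
          intro h0; rw [h0] at b3; exact lt_irrefl _ b3) (fun h0 => hgg h0.symm) with h4 | ⟨h4, h5⟩
        · linarith
        · linarith
    intro s1 hs1 s2 hs2 s3 hs3 h12 h23 hf12 hf23
    have hg12 := key s1 hs1 s2 hs2 h12 hf12
    have hg13 := key s1 hs1 s3 hs3 (h12.trans h23) (hf12.trans hf23)
    set q := f s1 with hqdef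
    set r := g s1 with hrdef
    have hq := hf s1 hs1
    have hr := hg s1 hs1
    rw [← hqdef] at hq
    rw [← hrdef] at hr
    obtain ⟨ξ1, x1, x2, x3⟩ := rolle_step I E w C (E q) L s1 s2 hL0 h12 (hS s1 hs1) (hS s2 hs2)
    obtain ⟨ξ2, y1, y2, y3⟩ := rolle_step I E w C (E q) L s2 s3 hL0 h23 (hS s2 hs2) (hS s3 hs3)
    obtain ⟨ζ, z1, z2, z3⟩ := rolle_step I E w (fun p => C p * (E p - E q)) ((E q + E r) / 2) L
      ξ1 ξ2 hL0 (x2.trans y1) x3 y3
    have hEqr := hfg s1 hs1
    rw [← hqdef, ← hrdef] at hEqr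
    have hEqr1 := hE q hq r hr hEqr
    refine no_dom I (fun p => C p * (E p - E q) * (E p - (E q + E r) / 2))
      (fun p => w p + ζ * E p) L δ (cmin / 2) ((∑ p ∈ I, |C p|) * (D * D)) (by positivity) r hr ?_
      hL0.le ?_ ?_ ?_ z3
    · have h2 := hcmin r hr

      change cmin / 2 ≤ |C r * (E r - E q) * (E r - (E q + E r) / 2)|
      rw [abs_mul, abs_mul, abs_of_pos (show 0 < E r - E q by linarith),
        abs_of_pos (show 0 < E r - (E q + E r) / 2 by linarith)]
      have h3 : 1 ≤ E r - E q := by linarith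
      have h4 : 1 / 2 ≤ E r - (E q + E r) / 2 := by linarith
      have h5 : 1 / 2 ≤ (E r - E q) * (E r - (E q + E r) / 2) := by nlinarith
      rw [mul_assoc]
      nlinarith [abs_nonneg (C r)]
    · rw [Finset.sum_mul]
      apply Finset.sum_le_sum
      intro p hp
      rw [mul_assoc, abs_mul]
      apply mul_le_mul_of_nonneg_left _ (abs_nonneg _)
      rw [abs_mul]
      apply mul_le_mul (hED p hp q hq) _ (abs_nonneg _) (by linarith)
      have h1 := hED p hp q hq
      have h2 := hED p hp r hr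
      rw [abs_le] at h1 h2 ⊢
      constructor <;> linarith [h1.1, h1.2, h2.1, h2.2]
    · rw [← hK]; exact hexp
    · intro p hp hpr
      by_cases hpq : p = q
      · left; rw [hpq, sub_self, mul_zero, zero_mul]
      · have a1 := hoth s1 hs1 p hp hpq hpr
        have a2 := hoth s3 hs3 p hp (by rw [← hf23, ← hf12]; exact hpq)
          (by rw [← hg13]; exact hpr)
        rw [← hqdef, ← hrdef] at a1
        rw [← hf23, ← hf12, ← hg13] at a2
        rcases a1 with a1 | ⟨a1, -⟩
        · rcases a2 with a2 | ⟨a2, -⟩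
          · right
            have a3 := hgM s1 hs1
            have a4 := hgM s3 hs3
            rw [← hg13] at a4
            rw [← hrdef] at a3
            have b1 : 0 ≤ (w r + s1 * E r) - (w p + s1 * E p) - δ := by linarith
            have b2 : 0 ≤ (w r + s3 * E r) - (w p + s3 * E p) - δ := by linarith
            have c1 : s1 < ζ := x1.trans z1
            have c2 : ζ < s3 := z2.trans y2
            have b3 := mul_nonneg (sub_pos.2 c2).le b1
            have b4 := mul_nonneg (sub_pos.2 c1).le b2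
            have b5 : (s3 - s1) * ((w r + ζ * E r) - (w p + ζ * E p) - δ) =
              (s3 - ζ) * ((w r + s1 * E r) - (w p + s1 * E p) - δ) +
              (ζ - s1) * ((w r + s3 * E r) - (w p + s3 * E p) - δ) := by ring
            have b6 : 0 ≤ (s3 - s1) * ((w r + ζ * E r) - (w p + ζ * E p) - δ) := by
              rw [b5]; linarith
            have b7 : 0 ≤ (w r + ζ * E r) - (w p + ζ * E p) - δ :=
              nonneg_of_mul_nonneg_right b6 (sub_pos.2 (h12.trans h23))
            linarith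
          · left
            have : E p - (E q + E r) / 2 = 0 := by linarith
            rw [this, mul_zero]
        · left
          have : E p - (E q + E r) / 2 = 0 := by linarith
          rw [this, mul_zero]

end Pool.Agent.TH91.TS
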