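import Pool.Agent.TH91.TS.Comb
import Pool.Agent.TH91.TS.Count

set_option autoImplicit false

/-!
Sums of `k` squares with a common support of `t` monomials whose pairwise sums are distinct, in the
tropical limit: at most `2 (k + 1) t + 1` distinct real roots.
-/

namespace Pool.Agent.TH91.TS

open Finset

variable {t k : ℕ}

/-- the value of the sum of squares -/
noncomputable def ev (e : Fin t → ℕ) (v : Fin t → ℝ) (c : Fin k → ℝ) (a : Fin k → Fin t → ℝ)
    (T x : ℝ) : ℝ := ∑ m, c m * (∑ i, a m i * T ^ v i * x ^ e i) ^ 2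

/-- the matrix of coefficients -/
noncomputable def Rm (c : Fin k → ℝ) (a : Fin k → Fin t → ℝ) (i j : Fin t) : ℝ :=
  ∑ m, c m * a m i * a m j

theorem Rm_symm (c : Fin k → ℝ) (a : Fin k → Fin t → ℝ) (i j : Fin t) :
    Rm c a i j = Rm c a j i := by
  unfold Rm
  exact Finset.sum_congr rfl fun m _ => by ring

theorem ev_eq (e : Fin t → ℕ) (v : Fin t → ℝ) (c : Fin k → ℝ) (a : Fin k → Fin t → ℝ)
    (T x : ℝ) : ev e v c a T x = ∑ p : Fin t × Fin t,
      Rm c a p.1 p.2 * ((T ^ v p.1 * x ^ e p.1) * (T ^ v p.2 * x ^ e p.2)) := by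
  unfold ev Rm
  rw [← Finset.univ_product_univ, Finset.sum_product]
  simp_rw [Finset.sum_mul]
  have h1 : ∀ m, c m * (∑ i, a m i * T ^ v i * x ^ e i) ^ 2 =
      ∑ i, ∑ j, c m * a m i * a m j * ((T ^ v i * x ^ e i) * (T ^ v j * x ^ e j)) := by
    intro m
    rw [sq, Finset.sum_mul_sum, Finset.mul_sum]
    apply Finset.sum_congr rfl
    intro i _
    rw [Finset.mul_sum]
    apply Finset.sum_congr rfl
    intro j _
    ring
  simp_rw [h1]
  rw [Finset.sum_comm]
  apply Finset.sum_congr rfl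
  intro i _
  rw [Finset.sum_comm]

/-- folding a symmetric double sum -/
theorem fold_sum (G : Fin t → Fin t → ℝ) (hG : ∀ i j, G i j = G j i) :
    ∑ p : Fin t × Fin t, G p.1 p.2 = ∑ p ∈ (Finset.univ : Finset (Fin t × Fin t)).filter
      (fun p => p.1 ≤ p.2), (if p.1 = p.2 then 1 else 2) * G p.1 p.2 := by
  classical
  rw [← Finset.sum_filter_add_sum_filter_not Finset.univ (fun p : Fin t × Fin t => p.1 ≤ p.2)]
  have h1 : ∑ p ∈ (Finset.univ : Finset (Fin t × Fin t)).filter (fun p => ¬ p.1 ≤ p.2), G p.1 p.2 =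
      ∑ p ∈ (Finset.univ : Finset (Fin t × Fin t)).filter (fun p => p.1 < p.2), G p.1 p.2 := by
    apply Finset.sum_nbij' (fun p => p.swap) (fun p => p.swap)
    · intro p hp; simpa using hp
    · intro p hp; simpa using hp
    · intro p _; simp
    · intro p _; simp
    · intro p _; exact hG _ _
  have h2 : ∑ p ∈ (Finset.univ : Finset (Fin t × Fin t)).filter (fun p => p.1 < p.2), G p.1 p.2 =
      ∑ p ∈ (Finset.univ : Finset (Fin t × Fin t)).filter (fun p => p.1 ≤ p.2),
        (if p.1 = p.2 then 0 else G p.1 p.2) := by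
    rw [← Finset.sum_filter_not_add_sum_filter
      ((Finset.univ : Finset (Fin t × Fin t)).filter (fun p => p.1 ≤ p.2)) (fun p => p.1 = p.2)]
    rw [Finset.sum_eq_zero (s := (((Finset.univ : Finset (Fin t × Fin t)).filter
      (fun p => p.1 ≤ p.2)).filter (fun p => p.1 = p.2))), add_zero]
    · have : ((Finset.univ : Finset (Fin t × Fin t)).filter (fun p => p.1 < p.2)) =
        (((Finset.univ : Finset (Fin t × Fin t)).filter
          (fun p => p.1 ≤ p.2)).filter (fun p => ¬ p.1 = p.2)) := by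
        ext p
        simp only [Finset.mem_filter, Finset.mem_univ, true_and]
        exact lt_iff_le_and_ne
      rw [this]
      apply Finset.sum_congr rfl
      intro p hp
      rw [Finset.mem_filter] at hp
      rw [if_neg hp.2]
    · intro p hp
      rw [Finset.mem_filter] at hp
      rw [if_pos hp.2]
  rw [h1, h2, ← Finset.sum_add_distrib]
  apply Finset.sum_congr rfl
  intro p _
  split_ifs <;> ring

/-- the sums determine the pairs -/
theorem sum_inj {v : Fin t → ℝ} (hv : LinearIndependent ℚ v) {p q : Fin t × Fin t}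
    (hp : p.1 ≤ p.2) (hq : q.1 ≤ q.2) (h : v p.1 + v p.2 = v q.1 + v q.2) : p = q := by
  classical
  let φ : Fin t → ℚ := fun i =>
    ((if i = p.1 then 1 else 0) + (if i = p.2 then 1 else 0)) -
      ((if i = q.1 then 1 else 0) + (if i = q.2 then 1 else 0))
  have hsum : ∑ i, φ i • v i = 0 := by
    have h1 : ∀ x : Fin t, ∑ i, ((if i = x then (1 : ℝ) else 0) * v i) = v x := by
      intro x
      simp
    have h2 : ∑ i, φ i • v i = (v p.1 + v p.2) - (v q.1 + v q.2) := by
      have h3 : ∀ i, φ i • v i =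
          ((if i = p.1 then (1 : ℝ) else 0) * v i + (if i = p.2 then (1 : ℝ) else 0) * v i) -
          ((if i = q.1 then (1 : ℝ) else 0) * v i + (if i = q.2 then (1 : ℝ) else 0) * v i) := by
        intro i
        have hc : ∀ x : Fin t, (((if i = x then (1 : ℚ) else 0) : ℚ) : ℝ) =
            if i = x then (1 : ℝ) else 0 := by
          intro x; split_ifs <;> simp
        rw [Rat.smul_def]
        simp only [φ]
        push_cast
        simp only [hc]
        ring
      simp_rw [h3]
      rw [Finset.sum_sub_distrib, Finset.sum_add_distrib, Finset.sum_add_distrib,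
        h1, h1, h1, h1]
    rw [h2, h, sub_self]
  have hφ := Fintype.linearIndependent_iff.1 hv φ hsum
  have key : ∀ x, (((if x = p.1 then 1 else 0) + (if x = p.2 then 1 else 0) : ℚ)) =
      (if x = q.1 then 1 else 0) + (if x = q.2 then 1 else 0) := by
    intro x
    have := hφ x
    simp only [φ] at this
    linarith
  obtain ⟨p1, p2⟩ := p
  obtain ⟨q1, q2⟩ := q
  simp only at hp hq key
  have k1 := key p1
  have k2 := key p2
  have k3 := key q1
  have k4 := key q2
  by_cases c1 : p1 = q1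
  · subst c1
    by_cases c2 : p2 = q2
    · subst c2; rfl
    · exfalso
      rw [if_neg c2] at k2
      rw [if_pos rfl] at k2
      linarith
  · by_cases c2 : p1 = q2
    · subst c2
      by_cases c3 : p2 = q1
      · subst c3
        have := le_antisymm hp hq
        subst this
        rfl
      · exfalso
        rw [if_neg (fun h => c1 h.symm), if_neg (fun h => c3 h.symm), if_pos rfl] at k3
        linarith
    · exfalso
      rw [if_neg c1, if_neg c2, if_pos rfl] at k1
      split_ifs at k1 <;> linarith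

theorem exists_three (S : Finset ℝ) (h : 2 < S.card) :
    ∃ x y z : ℝ, x ∈ S ∧ y ∈ S ∧ z ∈ S ∧ x < y ∧ y < z := by
  let o := S.orderEmbOfFin rfl
  refine ⟨o ⟨0, by omega⟩, o ⟨1, by omega⟩, o ⟨2, by omega⟩, Finset.orderEmbOfFin_mem _ _ _,
    Finset.orderEmbOfFin_mem _ _ _, Finset.orderEmbOfFin_mem _ _ _, ?_, ?_⟩
  · exact (OrderEmbedding.lt_iff_lt o).2 (by rw [Fin.lt_def]; exact Nat.zero_lt_one)
  · exact (OrderEmbedding.lt_iff_lt o).2 (by rw [Fin.lt_def]; exact Nat.one_lt_two)

/-- the only collinear triples of sums are the midpoint triples -/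
theorem generic {e : Fin t → ℕ} (he : Function.Injective e) {v : Fin t → ℝ}
    (hv : LinearIndependent ℚ v) (p q r : Fin t × Fin t) (hpq : e p.1 + e p.2 < e q.1 + e q.2)
    (hqr : e q.1 + e q.2 < e r.1 + e r.2)
    (h : ((v p.1 + v p.2) - (v r.1 + v r.2)) * (((e q.1 : ℝ) + e q.2) - (e r.1 + e r.2)) =
      ((v q.1 + v q.2) - (v r.1 + v r.2)) * (((e p.1 : ℝ) + e p.2) - (e r.1 + e r.2))) :
    2 * ((e q.1 : ℝ) + e q.2) = ((e p.1 : ℝ) + e p.2) + (e r.1 + e r.2) ∧
      2 * (v q.1 + v q.2) = (v p.1 + v p.2) + (v r.1 + v r.2) := by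
  classical
  obtain ⟨A, hA⟩ : ∃ A : ℚ, A = ((e r.1 : ℚ) + e r.2) - (e q.1 + e q.2) := ⟨_, rfl⟩
  obtain ⟨B, hB⟩ : ∃ B : ℚ, B = ((e q.1 : ℚ) + e q.2) - (e p.1 + e p.2) := ⟨_, rfl⟩
  have hA0 : 0 < A := by
    rw [hA, sub_pos]; exact_mod_cast hqr
  have hB0 : 0 < B := by
    rw [hB, sub_pos]; exact_mod_cast hpq
  let φ : Fin t → ℚ := fun i =>
    (A + B) * ((if i = q.1 then 1 else 0) + (if i = q.2 then 1 else 0)) -
      A * ((if i = p.1 then 1 else 0) + (if i = p.2 then 1 else 0)) -
      B * ((if i = r.1 then 1 else 0) + (if i = r.2 then 1 else 0))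
  have hsum : ∑ i, φ i • v i = 0 := by
    have h1 : ∀ x : Fin t, ∑ i, ((if i = x then (1 : ℝ) else 0) * v i) = v x := by
      intro x
      simp
    have h2 : ∑ i, φ i • v i = ((A : ℝ) + B) * (v q.1 + v q.2) - A * (v p.1 + v p.2) -
        B * (v r.1 + v r.2) := by
      have h3 : ∀ i, φ i • v i =
          ((A : ℝ) + B) * ((if i = q.1 then (1 : ℝ) else 0) * v i +
            (if i = q.2 then (1 : ℝ) else 0) * v i) -
          A * ((if i = p.1 then (1 : ℝ) else 0) * v i + (if i = p.2 then (1 : ℝ) else 0) * v i) -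
          B * ((if i = r.1 then (1 : ℝ) else 0) * v i + (if i = r.2 then (1 : ℝ) else 0) * v i) := by
        intro i
        have hc : ∀ x : Fin t, (((if i = x then (1 : ℚ) else 0) : ℚ) : ℝ) =
            if i = x then (1 : ℝ) else 0 := by
          intro x; split_ifs <;> simp
        rw [Rat.smul_def]
        simp only [φ]
        push_cast
        simp only [hc]
        ring
      simp_rw [h3]
      rw [Finset.sum_sub_distrib, Finset.sum_sub_distrib, ← Finset.mul_sum, ← Finset.mul_sum,
        ← Finset.mul_sum, Finset.sum_add_distrib, Finset.sum_add_distrib, Finset.sum_add_distrib,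
        h1, h1, h1, h1, h1, h1]
    rw [h2]
    have hA' : (A : ℝ) = ((e r.1 : ℝ) + e r.2) - (e q.1 + e q.2) := by rw [hA]; push_cast; ring
    have hB' : (B : ℝ) = ((e q.1 : ℝ) + e q.2) - (e p.1 + e p.2) := by rw [hB]; push_cast; ring
    rw [hA', hB']
    linarith
  have hφ := Fintype.linearIndependent_iff.1 hv φ hsum
  -- the elements of `p` and `r` are elements of `q`
  have hin : ∀ x : Fin t, (x = p.1 ∨ x = p.2 ∨ x = r.1 ∨ x = r.2) → x = q.1 ∨ x = q.2 := by
    intro x hx
    by_contra hcon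
    push Not at hcon
    have h1 := hφ x
    simp only [φ] at h1
    rw [if_neg hcon.1, if_neg hcon.2] at h1
    have i1 : (0 : ℚ) ≤ if x = p.1 then 1 else 0 := by split_ifs <;> norm_num
    have i2 : (0 : ℚ) ≤ if x = p.2 then 1 else 0 := by split_ifs <;> norm_num
    have i3 : (0 : ℚ) ≤ if x = r.1 then 1 else 0 := by split_ifs <;> norm_num
    have i4 : (0 : ℚ) ≤ if x = r.2 then 1 else 0 := by split_ifs <;> norm_num
    rcases hx with hx | hx | hx | hx
    · rw [if_pos hx] at h1; nlinarith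
    · rw [if_pos hx] at h1; nlinarith
    · rw [if_pos hx] at h1; nlinarith
    · rw [if_pos hx] at h1; nlinarith
  obtain ⟨q1, q2⟩ := q
  obtain ⟨p1, p2⟩ := p
  obtain ⟨r1, r2⟩ := r
  simp only at hpq hqr hin ⊢
  rcases hin p1 (by simp) with a | a <;> rcases hin p2 (by simp) with b | b <;>
    rcases hin r1 (by simp) with c | c <;> rcases hin r2 (by simp) with d | d <;>
    subst a b c d <;> first | (exfalso; omega) | (constructor <;> ring)

theorem pos_roots (e : Fin t → ℕ) (v : Fin t → ℝ) (he : Function.Injective e)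
    (hv : LinearIndependent ℚ v)
    (c : Fin k → ℝ) (a : Fin k → Fin t → ℝ) (hne : ∃ i j, Rm c a i j ≠ 0) :
    ∃ T0 : ℝ, 1 < T0 ∧ ∀ T : ℝ, T0 ≤ T → ∀ S : Finset ℝ, (∀ x ∈ S, 0 < x ∧ ev e v c a T x = 0) →
      S.card ≤ 2 * ((k + 1) * t) := by
  classical
  let I : Finset (Fin t × Fin t) := Finset.univ.filter fun p => p.1 ≤ p.2 ∧ Rm c a p.1 p.2 ≠ 0
  let E : Fin t × Fin t → ℝ := fun p => (e p.1 : ℝ) + e p.2
  let w : Fin t × Fin t → ℝ := fun p => v p.1 + v p.2
  let C : Fin t × Fin t → ℝ := fun p => (if p.1 = p.2 then 1 else 2) * Rm c a p.1 p.2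
  have hI : ∀ p, p ∈ I ↔ p.1 ≤ p.2 ∧ Rm c a p.1 p.2 ≠ 0 := fun p => by simp [I]
  have hneI : I.Nonempty := by
    obtain ⟨i, j, hij⟩ := hne
    rcases le_total i j with h | h
    · exact ⟨(i, j), (hI _).2 ⟨h, hij⟩⟩
    · exact ⟨(j, i), (hI _).2 ⟨h, by rw [Rm_symm]; exact hij⟩⟩
  obtain ⟨L0, hL0, hmain⟩ := count_le I E w C
    (by
      intro p hp
      rw [hI] at hp
      refine mul_ne_zero ?_ hp.2
      split_ifs <;> norm_num) hneI
    (by
      intro p hp q hq hpq
      change ((e p.1 : ℝ) + e p.2) < (e q.1 + e q.2) at hpq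
      change ((e p.1 : ℝ) + e p.2) + 1 ≤ (e q.1 + e q.2)
      exact_mod_cast hpq)
    (by
      intro p hp q hq hpq _ hwpq
      change v p.1 + v p.2 = v q.1 + v q.2 at hwpq
      rw [hI] at hp hq
      exact hpq (sum_inj hv hp.1 hq.1 hwpq))
    (by
      intro p hp q hq r hr h1 h2 h3
      change ((e p.1 : ℝ) + e p.2) < (e q.1 + e q.2) at h1
      change ((e q.1 : ℝ) + e q.2) < (e r.1 + e r.2) at h2
      exact generic he hv p q r (by exact_mod_cast h1) (by exact_mod_cast h2) h3)
  refine ⟨Real.exp L0, Real.one_lt_exp_iff.2 hL0, ?_⟩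
  intro T hT S hSx
  have hT0 : 0 < T := (Real.exp_pos _).trans_le hT
  have hL : L0 ≤ Real.log T := (Real.le_log_iff_exp_le hT0).2 hT
  have hLpos : 0 < Real.log T := hL0.trans_le hL
  -- change of variable
  have hg : ∀ x : ℝ, 0 < x → ∀ i, T ^ v i * x ^ e i =
      Real.exp (Real.log T * (v i + Real.log x / Real.log T * e i)) := by
    intro x hx i
    rw [Real.rpow_def_of_pos hT0, ← Real.rpow_natCast, Real.rpow_def_of_pos hx, ← Real.exp_add]
    congr 1
    field_simp
  have hev : ∀ x : ℝ, 0 < x → ev e v c a T x =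
      ∑ p ∈ I, C p * Real.exp (Real.log T * (w p + Real.log x / Real.log T * E p)) := by
    intro x hx
    rw [ev_eq]
    have h1 : ∀ p : Fin t × Fin t, (T ^ v p.1 * x ^ e p.1) * (T ^ v p.2 * x ^ e p.2) =
        Real.exp (Real.log T * (w p + Real.log x / Real.log T * E p)) := by
      intro p
      rw [hg x hx, hg x hx, ← Real.exp_add]
      congr 1
      simp only [w, E]
      ring
    rw [fold_sum (fun i j => Rm c a i j * ((T ^ v i * x ^ e i) * (T ^ v j * x ^ e j)))
      (fun i j => by rw [Rm_symm c a i j]; ring)]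
    symm
    apply Finset.sum_subset_zero_on_sdiff
    · intro p hp
      rw [hI] at hp
      rw [Finset.mem_filter]
      exact ⟨Finset.mem_univ _, hp.1⟩
    · intro p hp
      rw [Finset.mem_sdiff, Finset.mem_filter, hI] at hp
      have h2 : Rm c a p.1 p.2 = 0 := by
        by_contra h3
        exact hp.2 ⟨hp.1.2, h3⟩
      simp only [h2, zero_mul, mul_zero]
    · intro p _
      rw [h1 p]
      simp only [C]
      ring
  obtain ⟨f, hf, hf3⟩ := hmain (Real.log T) hL (S.image fun x => Real.log x / Real.log T) (by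
    intro s hs
    rw [Finset.mem_image] at hs
    obtain ⟨x, hx, rfl⟩ := hs
    obtain ⟨hx0, hx1⟩ := hSx x hx
    rw [← hev x hx0]
    exact hx1)
  have hinj : Set.InjOn (fun x => Real.log x / Real.log T) (S : Set ℝ) := by
    intro x hx y hy hxy
    have h1 : Real.log x / Real.log T = Real.log y / Real.log T := hxy
    rw [div_left_inj' hLpos.ne'] at h1
    exact Real.log_injOn_pos (hSx x hx).1 (hSx y hy).1 h1
  rw [← Finset.card_image_of_injOn hinj]
  obtain ⟨S', hS'⟩ : ∃ S' : Finset ℝ, S' = S.image fun x => Real.log x / Real.log T := ⟨_, rfl⟩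
  rw [← hS'] at hf hf3 ⊢
  have hfib : S'.card ≤ 2 * (S'.image f).card := by
    apply Finset.card_le_mul_card_image
    intro b _
    by_contra hcon
    push Not at hcon
    obtain ⟨x, y, z, hx, hy, hz, hxy, hyz⟩ := exists_three _ hcon
    rw [Finset.mem_filter] at hx hy hz
    exact hf3 x hx.1 y hy.1 z hz.1 hxy hyz (hx.2.trans hy.2.symm) (hy.2.trans hz.2.symm)
  refine hfib.trans (Nat.mul_le_mul_left 2 ?_)
  have he' : Function.Injective (fun i => (e i : ℝ)) := by
    intro i j h
    have h0 : (e i : ℝ) = e j := h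
    have h1 : e i = e j := by exact_mod_cast h0
    exact he h1
  refine card_vtx he' v (fun m i => c m * a m i) a (R := Rm c a) (fun i j => rfl) _ ?_
  intro p hp
  rw [Finset.mem_image] at hp
  obtain ⟨s, hs, rfl⟩ := hp
  obtain ⟨hfI, σ, hσ⟩ := hf s hs
  have hfI' := (hI _).1 hfI
  refine ⟨hfI'.2, σ, ?_⟩
  intro i' j' hR hne'
  rcases le_total i' j' with h | h
  · exact hσ (i', j') ((hI _).2 ⟨h, hR⟩) (by
      intro h1
      apply hne'
      rw [← h1])
  · have h2 := hσ (j', i') ((hI _).2 ⟨h, by rw [Rm_symm]; exact hR⟩) (by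
      intro h1
      apply hne'
      rw [← h1]
      simp only
      ring)
    simp only [w, E] at h2
    linarith

open Polynomial in
/-- the polynomial `∑ c m (∑ a m i T ^ (v i) X ^ (e i)) ^ 2` -/
noncomputable def sos (e : Fin t → ℕ) (v : Fin t → ℝ) (c : Fin k → ℝ) (a : Fin k → Fin t → ℝ)
    (T : ℝ) : ℝ[X] := ∑ m, C (c m) * (∑ i, C (a m i * T ^ v i) * X ^ e i) ^ 2

open Polynomial in
theorem eval_sos (e : Fin t → ℕ) (v : Fin t → ℝ) (c : Fin k → ℝ) (a : Fin k → Fin t → ℝ)
    (T x : ℝ) : (sos e v c a T).eval x = ev e v c a T x := by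
  unfold sos ev
  rw [eval_finsetSum]
  apply Finset.sum_congr rfl
  intro m _
  rw [eval_mul, eval_C, eval_pow, eval_finsetSum]
  congr 2
  apply Finset.sum_congr rfl
  intro i _
  rw [eval_mul, eval_C, eval_pow, eval_X]

theorem ev_neg (e : Fin t → ℕ) (v : Fin t → ℝ) (c : Fin k → ℝ) (a : Fin k → Fin t → ℝ)
    (T x : ℝ) : ev e v c a T (-x) = ev e v c (fun m i => (-1) ^ e i * a m i) T x := by
  unfold ev
  apply Finset.sum_congr rfl
  intro m _
  congr 2
  apply Finset.sum_congr rfl
  intro i _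
  rw [neg_pow]
  ring

theorem Rm_neg (e : Fin t → ℕ) (c : Fin k → ℝ) (a : Fin k → Fin t → ℝ) (i j : Fin t) :
    Rm c (fun m i => (-1) ^ e i * a m i) i j = (-1) ^ e i * (-1) ^ e j * Rm c a i j := by
  unfold Rm
  rw [Finset.mul_sum]
  apply Finset.sum_congr rfl
  intro m _
  ring

open Polynomial in
theorem main (e : Fin t → ℕ) (v : Fin t → ℝ) (he : Function.Injective e)
    (hv : LinearIndependent ℚ v)
    (c : Fin k → ℝ) (a : Fin k → Fin t → ℝ) :
    ∃ T0 : ℝ, 1 < T0 ∧ ∀ T : ℝ, T0 ≤ T →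
      (sos e v c a T).roots.toFinset.card ≤ 4 * ((k + 1) * t) + 1 := by
  classical
  by_cases hne : ∃ i j, Rm c a i j ≠ 0
  · have hne' : ∃ i j, Rm c (fun m i => (-1) ^ e i * a m i) i j ≠ 0 := by
      obtain ⟨i, j, hij⟩ := hne
      refine ⟨i, j, ?_⟩
      rw [Rm_neg]
      exact mul_ne_zero (mul_ne_zero (pow_ne_zero _ (by norm_num)) (pow_ne_zero _ (by norm_num))) hij
    obtain ⟨T1, hT1, h1⟩ := pos_roots e v he hv c a hne
    obtain ⟨T2, hT2, h2⟩ := pos_roots e v he hv c _ hne'
    refine ⟨max T1 T2, lt_max_of_lt_left hT1, ?_⟩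
    intro T hT
    have ha := h1 T ((le_max_left _ _).trans hT)
    have hb := h2 T ((le_max_right _ _).trans hT)
    set Z := (sos e v c a T).roots.toFinset with hZ
    have hroot : ∀ x ∈ Z, ev e v c a T x = 0 := by
      intro x hx
      rw [hZ, Multiset.mem_toFinset] at hx
      rw [← eval_sos]
      exact (mem_roots'.1 hx).2
    have hsub : Z ⊆ (Z.filter fun x => 0 < x) ∪ (Z.filter fun x => x < 0) ∪ {0} := by
      intro x hx
      rw [Finset.mem_union, Finset.mem_union, Finset.mem_filter, Finset.mem_filter,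
        Finset.mem_singleton]
      rcases lt_trichotomy x 0 with h | h | h
      · exact Or.inl (Or.inr ⟨hx, h⟩)
      · exact Or.inr h
      · exact Or.inl (Or.inl ⟨hx, h⟩)
    have e1 : (Z.filter fun x => 0 < x).card ≤ 2 * ((k + 1) * t) := by
      apply ha
      intro x hx
      rw [Finset.mem_filter] at hx
      exact ⟨hx.2, hroot x hx.1⟩
    have e2 : (Z.filter fun x => x < 0).card ≤ 2 * ((k + 1) * t) := by
      rw [← Finset.card_image_of_injective (Z.filter fun x => x < 0) neg_injective]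
      apply hb
      intro x hx
      rw [Finset.mem_image] at hx
      obtain ⟨y, hy, rfl⟩ := hx
      rw [Finset.mem_filter] at hy
      refine ⟨neg_pos.2 hy.2, ?_⟩
      rw [← ev_neg, neg_neg]
      exact hroot y hy.1
    calc Z.card ≤ _ := Finset.card_le_card hsub
      _ ≤ ((Z.filter fun x => 0 < x) ∪ (Z.filter fun x => x < 0)).card + ({0} : Finset ℝ).card :=
        Finset.card_union_le _ _
      _ ≤ ((Z.filter fun x => 0 < x).card + (Z.filter fun x => x < 0).card) + 1 :=
        Nat.add_le_add (Finset.card_union_le _ _) (by simp)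
      _ ≤ _ := by omega
  · push Not at hne
    refine ⟨2, by norm_num, ?_⟩
    intro T _
    have : sos e v c a T = 0 := by
      apply Polynomial.funext
      intro x
      rw [eval_sos, ev_eq, eval_zero]
      exact Finset.sum_eq_zero fun p _ => by rw [hne, zero_mul]
    rw [this]
    simp

end Pool.Agent.TH91.TS
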