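import Pool.Agent.TH91.TS.Main

/-!
# Sums of squares in the tropical limit have linearly many real roots

For distinct exponents `e i` and rationally independent reals `v i`, every sum of `k` real multiples
of squares of polynomials `∑ i, a m i * T ^ (v i) * X ^ (e i)` has at most `4 (k + 1) t + 1` distinct
real roots for all large `T`; if no `a m i` vanishes this is at most nine times the support-sum.
-/

set_option autoImplicit false

namespace Pool.Agent.TH91.TS.Tropical

open Polynomial Finset

theorem result (t k : ℕ) (e : Fin t → ℕ) (v : Fin t → ℝ) (he : Function.Injective e)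
    (hv : LinearIndependent ℚ v) (c : Fin k → ℝ) (a : Fin k → Fin t → ℝ) :
    ∃ T₀ : ℝ, ∀ T : ℝ, T₀ ≤ T →
      (∑ m, C (c m) * (∑ i, C (a m i * T ^ v i) * X ^ e i) ^ 2 : ℝ[X]).roots.toFinset.card ≤
        4 * (k + 1) * t + 1 ∧
      ((∀ m i, a m i ≠ 0) →
        (∑ m, C (c m) * (∑ i, C (a m i * T ^ v i) * X ^ e i) ^ 2 : ℝ[X]).roots.toFinset.card ≤
          9 * ∑ m, (∑ i, C (a m i * T ^ v i) * X ^ e i : ℝ[X]).support.card) := by
  obtain ⟨T₀, hT₀, h⟩ := Pool.Agent.TH91.TS.main e v he hv c a
  refine ⟨T₀, fun T hT => ?_⟩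
  have h1 := h T hT
  have hTpos : 0 < T := by linarith
  unfold Pool.Agent.TH91.TS.sos at h1
  refine ⟨by rw [mul_assoc]; exact h1, fun ha => ?_⟩
  have hs : ∀ m, (∑ i, C (a m i * T ^ v i) * X ^ e i : ℝ[X]).support.card = t := fun m =>
    Polynomial.card_support_eq' e (fun i => a m i * T ^ v i) he
      (fun i => mul_ne_zero (ha m i) (Real.rpow_pos_of_pos hTpos _).ne')
  simp_rw [hs]
  rw [Finset.sum_const, Finset.card_univ, Fintype.card_fin, smul_eq_mul]
  rcases Nat.eq_zero_or_pos k with rfl | hk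
  · simp
  · rcases Nat.eq_zero_or_pos t with rfl | ht
    · simp
    · have h2 : t ≤ k * t := Nat.le_mul_of_pos_left t hk
      have h3 : 4 * ((k + 1) * t) + 1 ≤ 9 * (k * t) := by nlinarith
      exact h1.trans h3

end Pool.Agent.TH91.TS.Tropical
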